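import Pool.Agent.Work.MP_b29d7f_ns.Interface3

set_option autoImplicit false

open Finset

namespace Pool.NS

namespace CNTL_

/-- the vector with integer coordinates -/
noncomputable def vec {k N : ℕ} (g : Fin k → Fin N) : E k :=
  WithLp.toLp 2 (fun i => ((g i : ℕ) : ℝ))

lemma vec_apply {k N : ℕ} (g : Fin k → Fin N) (i : Fin k) : vec g i = ((g i : ℕ) : ℝ) := rfl

lemma norm_vec {k N : ℕ} (hk : k ≤ 2) (g : Fin k → Fin N) : ‖vec g‖ ≤ 3 / 2 * N := by
  rw [EuclideanSpace.norm_eq]
  apply Real.sqrt_le_iff.2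
  refine ⟨by positivity, ?_⟩
  have h1 : ∑ i, ‖vec g i‖ ^ 2 ≤ ∑ _i : Fin k, (N : ℝ) ^ 2 := by
    apply Finset.sum_le_sum
    intro i _
    rw [vec_apply, Real.norm_eq_abs, sq_abs]
    have : ((g i : ℕ) : ℝ) ≤ N := by exact_mod_cast (g i).2.le
    exact pow_le_pow_left₀ (by positivity) this 2
  have h2 : (∑ _i : Fin k, (N : ℝ) ^ 2) = k * (N : ℝ) ^ 2 := by
    simp
  have h3 : (k : ℝ) ≤ 2 := by exact_mod_cast hk
  rw [h2] at h1
  nlinarith [sq_nonneg (N : ℝ)]

lemma vec_inj {k N : ℕ} (g g' : Fin k → Fin N) (h : ‖vec g - vec g'‖ ≤ 1 / 2) : g = g' := by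
  funext i
  have h1 : ‖(vec g - vec g') i‖ ≤ ‖vec g - vec g'‖ := PiLp.norm_apply_le _ i
  have h2 : (vec g - vec g') i = ((g i : ℕ) : ℝ) - ((g' i : ℕ) : ℝ) := rfl
  rw [h2, Real.norm_eq_abs] at h1
  have h3 : |((g i : ℕ) : ℤ) - ((g' i : ℕ) : ℤ)| < 1 := by
    have : (|((g i : ℕ) : ℤ) - ((g' i : ℕ) : ℤ)| : ℝ) < 1 := by
      push_cast
      linarith
    exact_mod_cast this
  have h4 := Int.abs_lt_one_iff.1 h3
  have h5 : ((g i : ℕ) : ℤ) = ((g' i : ℕ) : ℤ) := by linarith
  exact Fin.ext (by exact_mod_cast h5)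

end CNTL_

open CNTL_ in
theorem stmt_CNTL : Stmt_CNTL := by
  intro R _ P C₁ h
  classical
  set D : ℕ := ∑ v, P.e v with hD
  have hDpos : 1 ≤ D := by
    obtain ⟨v⟩ := h.ne
    have h1 : P.e v ≤ D := Finset.single_le_sum (f := fun v => P.e v) (fun _ _ => Nat.zero_le _)
      (Finset.mem_univ v)
    rcases h.e_eq v with h2 | h2 <;> omega
  have hDr : (0:ℝ) < D := by exact_mod_cast hDpos
  refine ⟨C₁ + D * Real.log 8, Real.exp (-C₁) / 16 ^ D, by positivity, ?_⟩
  intro ρ m hρ hdeg z a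
  set y : ℝ := Real.exp ((P.deg ρ m - C₁) / D) / 8 with hy
  have hy1 : 1 ≤ y := by
    rw [hy, le_div_iff₀ (by norm_num), one_mul]
    have : Real.log 8 ≤ (P.deg ρ m - C₁) / D := by
      rw [le_div_iff₀ hDr]
      linarith
    calc (8:ℝ) = Real.exp (Real.log 8) := (Real.exp_log (by norm_num)).symm
      _ ≤ _ := Real.exp_le_exp.2 this
  set N : ℕ := ⌊y⌋₊ with hN
  have hN1 : 1 ≤ N := by
    rw [hN]
    exact Nat.le_floor (by exact_mod_cast hy1)
  have hNr : (1:ℝ) ≤ N := by exact_mod_cast hN1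
  have hNy : (N : ℝ) ≤ y := Nat.floor_le (by linarith)
  have hyN : y < N + 1 := Nat.lt_floor_add_one y
  -- the small boxes
  have hbox : ∀ g : ((v : P.Ω) → Fin (P.e v) → Fin N), ∃ x : R,
      (∀ v, ‖P.em x v - (z v + (ρ v / (2 * N)) • vec (g v))‖ ≤ ρ v / (8 * N)) ∧
        ∀ t, P.NearT t (m t) x a := by
    intro g
    apply h.cov (fun v => ρ v / (8 * N)) m
    · intro v
      have := hρ v
      positivity
    · have h1 : P.deg (fun v => ρ v / (8 * N)) m = P.deg ρ m - D * Real.log (8 * N) := by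
        unfold Data.deg
        rw [hD]
        push_cast
        rw [Finset.sum_mul]
        have : ∑ v, (P.e v : ℝ) * Real.log (ρ v / (8 * N)) =
            ∑ v, (P.e v : ℝ) * Real.log (ρ v) - ∑ v, (P.e v : ℝ) * Real.log (8 * N) := by
          rw [← Finset.sum_sub_distrib]
          apply Finset.sum_congr rfl
          intro v _
          rw [Real.log_div (hρ v).ne' (by positivity)]
          ring
        rw [this]
        ring
      rw [h1]
      have h2 : Real.log (8 * N) ≤ (P.deg ρ m - C₁) / D := by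
        rw [Real.log_le_iff_le_exp (by positivity)]
        rw [hy] at hNy
        rw [le_div_iff₀ (by norm_num)] at hNy
        linarith
      rw [le_div_iff₀ hDr] at h2
      linarith
  choose x hx1 hx2 using hbox
  have hinj : Function.Injective x := by
    intro g g' hgg
    funext v
    apply vec_inj
    have h1 := hx1 g v
    have h2 := hx1 g' v
    rw [← hgg] at h2
    have h3 : ‖(ρ v / (2 * N)) • (vec (g v) - vec (g' v))‖ ≤ ρ v / (8 * N) + ρ v / (8 * N) := by
      have h4 : (ρ v / (2 * N)) • (vec (g v) - vec (g' v)) =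
          (P.em (x g) v - (z v + (ρ v / (2 * N)) • vec (g' v))) -
            (P.em (x g) v - (z v + (ρ v / (2 * N)) • vec (g v))) := by
        rw [smul_sub]
        abel
      rw [h4]
      exact (norm_sub_le _ _).trans (add_le_add h2 h1)
    rw [norm_smul, Real.norm_eq_abs, abs_of_pos (by have := hρ v; positivity)] at h3
    have h5 : ρ v / (8 * N) + ρ v / (8 * N) = (ρ v / (2 * N)) * (1 / 2) := by
      field_simp
      ring
    rw [h5] at h3
    exact le_of_mul_le_mul_left h3 (by have := hρ v; positivity)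
  refine ⟨Finset.univ.image x, ?_, ?_⟩
  · rw [Finset.card_image_of_injective _ hinj, Finset.card_univ]
    have h1 : Fintype.card ((v : P.Ω) → Fin (P.e v) → Fin N) = N ^ D := by
      rw [Fintype.card_pi]
      simp only [Fintype.card_fun, Fintype.card_fin]
      rw [Finset.prod_pow_eq_pow_sum]
    rw [h1]
    push_cast
    have h2 : Real.exp ((P.deg ρ m - C₁) / D) / 16 ≤ N := by
      have : Real.exp ((P.deg ρ m - C₁) / D) = 8 * y := by
        rw [hy]
        ring
      rw [this]
      linarith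
    have h3 : (Real.exp ((P.deg ρ m - C₁) / D) / 16) ^ D ≤ (N : ℝ) ^ D :=
      pow_le_pow_left₀ (by positivity) h2 D
    refine le_trans (le_of_eq ?_) h3
    rw [div_pow, ← Real.exp_nat_mul]
    have h4 : (D : ℝ) * ((P.deg ρ m - C₁) / D) = -C₁ + P.deg ρ m := by
      field_simp
      ring
    rw [h4, Real.exp_add]
    ring
  · intro w hw
    obtain ⟨g, _, rfl⟩ := Finset.mem_image.1 hw
    refine ⟨fun v => ?_, hx2 g⟩
    have h1 := hx1 g v
    have h2 : P.em (x g) v - z v = (P.em (x g) v - (z v + (ρ v / (2 * N)) • vec (g v))) +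
        (ρ v / (2 * N)) • vec (g v) := by abel
    rw [h2]
    refine (norm_add_le _ _).trans ?_
    have h3 : ‖(ρ v / (2 * N)) • vec (g v)‖ ≤ (ρ v / (2 * N)) * (3 / 2 * N) := by
      rw [norm_smul, Real.norm_eq_abs, abs_of_pos (by have := hρ v; positivity)]
      apply mul_le_mul_of_nonneg_left _ (by have := hρ v; positivity)
      apply norm_vec
      rcases h.e_eq v with h2 | h2 <;> omega
    have h4 : (ρ v / (2 * N)) * (3 / 2 * N) = 3 / 4 * ρ v := by
      field_simp
      ring
    have h5 : ρ v / (8 * N) ≤ ρ v / 8 := by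
      apply div_le_div_of_nonneg_left (hρ v).le (by norm_num)
      linarith
    have := hρ v
    linarith

end Pool.NS
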