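import Pool.Agent.Work.MP_b29d7f_ns.Interface3

set_option autoImplicit false

open Finset MeasureTheory

namespace Pool.NS

namespace FLAC_

/-- the comparison function -/
noncomputable def Φ (y : ℝ) : ℝ := y + y ^ (-(5 / 4) : ℝ)

lemma Φ_nonneg {y : ℝ} (hy : 0 ≤ y) : 0 ≤ Φ y := by
  unfold Φ
  have := Real.rpow_nonneg hy (-(5 / 4) : ℝ)
  linarith

lemma abs_log_le {y : ℝ} (hy : 0 ≤ y) : |Real.log y| ≤ Φ y := by
  unfold Φ
  rcases hy.eq_or_lt with h0 | h0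
  · rw [← h0]
    simp
  · have hp : 0 < y ^ (-(5 / 4) : ℝ) := Real.rpow_pos_of_pos h0 _
    rcases le_or_gt 1 y with h1 | h1
    · rw [abs_of_nonneg (Real.log_nonneg h1)]
      have := Real.log_le_sub_one_of_pos h0
      linarith
    · rw [abs_of_neg (Real.log_neg h0 h1)]
      have h2 : -Real.log y ≤ y⁻¹ := by
        rw [← Real.log_inv]
        have := Real.log_le_sub_one_of_pos (inv_pos.2 h0)
        linarith
      have h3 : y⁻¹ ≤ y ^ (-(5 / 4) : ℝ) := by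
        rw [← Real.rpow_neg_one]
        exact Real.rpow_le_rpow_of_exponent_ge h0 h1.le (by norm_num)
      linarith

lemma integrable_ball (r : ℝ) (hr : 0 < r) :
    IntegrableOn (fun x : E 2 => Φ ‖x‖) (Metric.ball (0 : E 2) r) := by
  rw [integrableOn_fun_norm_addHaar (μ := (volume : Measure (E 2))) (f := Φ)]
  have h2 : Module.finrank ℝ (E 2) = 2 := by simp
  rw [h2]
  have h1 : IntegrableOn (fun y : ℝ => y ^ 2 + y ^ (-(1 / 4) : ℝ)) (Set.Ioo 0 r) := by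
    apply Integrable.add
    · have : ContinuousOn (fun y : ℝ => y ^ 2) (Set.Icc 0 r) := by fun_prop
      exact (this.integrableOn_Icc).mono_set Set.Ioo_subset_Icc_self
    · have := intervalIntegral.intervalIntegrable_rpow' (a := 0) (b := r)
        (show (-1 : ℝ) < -(1 / 4) by norm_num)
      rw [intervalIntegrable_iff, Set.uIoc_of_le hr.le] at this
      exact this.mono_set Set.Ioo_subset_Ioc_self
  refine h1.congr_fun ?_ measurableSet_Ioo
  intro y hy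
  have hy0 : 0 < y := hy.1
  simp only [Φ, smul_eq_mul]
  have h3 : y ^ (-(1 / 4) : ℝ) = y * y ^ (-(5 / 4) : ℝ) := by
    nth_rewrite 2 [← Real.rpow_one y]
    rw [← Real.rpow_add hy0]
    norm_num
  rw [h3]
  ring

/-- products with a density are integrable -/
lemma integrable_mul {f : E 2 → ℝ} (hm : Measurable f) (h0 : ∀ z, 0 ≤ f z)
    (hb : ∃ B, ∀ z, f z ≤ B) (hs : ∃ R₀, ∀ z, R₀ ≤ ‖z‖ → f z = 0) (ξ : E 2) (g : E 2 → ℝ)
    (hg : Measurable g) (hgb : ∀ z, |g z| ≤ Φ ‖z - ξ‖) :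
    Integrable (fun z => g z * f z) := by
  obtain ⟨B, hB⟩ := hb
  obtain ⟨R₀, hR⟩ := hs
  have hB0 : 0 ≤ B := (h0 0).trans (hB 0)
  set r : ℝ := |R₀| + ‖ξ‖ + 1 with hr
  have hr0 : 0 < r := by positivity
  have h1 : Integrable (fun z : E 2 => (Metric.ball (0 : E 2) r).indicator (fun x => Φ ‖x‖) (z - ξ)) := by
    have := (integrable_ball r hr0).integrable_indicator measurableSet_ball
    exact this.comp_sub_right ξ
  refine (h1.const_mul B).mono' ?_ ?_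
  · exact (hg.mul hm).aestronglyMeasurable
  · filter_upwards with z
    rw [Real.norm_eq_abs, abs_mul, abs_of_nonneg (h0 z)]
    by_cases hz : z - ξ ∈ Metric.ball (0 : E 2) r
    · rw [Set.indicator_of_mem hz]
      rw [mul_comm]
      exact mul_le_mul (hB z) (hgb z) (abs_nonneg _) hB0
    · have hz' : r ≤ ‖z - ξ‖ := by
        rw [mem_ball_zero_iff, not_lt] at hz
        exact hz
      have h2 : R₀ ≤ ‖z‖ := by
        have h3 : ‖z - ξ‖ ≤ ‖z‖ + ‖ξ‖ := norm_sub_le _ _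
        have h4 : R₀ ≤ |R₀| := le_abs_self _
        linarith
      rw [hR z h2, mul_zero, Set.indicator_of_notMem hz, mul_zero]

lemma log_one_add_le {t : ℝ} (ht : 0 ≤ t) : Real.log (1 + t) ≤ 8 / 5 * t ^ (5 / 8 : ℝ) := by
  have h1 : (1 + t) ^ (5 / 8 : ℝ) ≤ 1 ^ (5 / 8 : ℝ) + t ^ (5 / 8 : ℝ) :=
    Real.rpow_add_le_add_rpow (by norm_num) ht (by norm_num) (by norm_num)
  rw [Real.one_rpow] at h1
  have h2 : 5 / 8 * Real.log (1 + t) = Real.log ((1 + t) ^ (5 / 8 : ℝ)) := by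
    rw [Real.log_rpow (by linarith)]
  have h3 : Real.log ((1 + t) ^ (5 / 8 : ℝ)) ≤ t ^ (5 / 8 : ℝ) := by
    have h4 := Real.log_le_sub_one_of_pos (Real.rpow_pos_of_pos (show 0 < 1 + t by linarith)
      (5 / 8 : ℝ))
    linarith
  linarith

/-- the pointwise inequality -/
lemma key (w y : E 2) (hy : y ≠ 0) (h1 : w - y ≠ 0) (h2 : w + y ≠ 0) :
    Real.log ‖w - y‖ + Real.log ‖w + y‖ - 2 * Real.log ‖y‖ ≤
      8 / 5 * ‖w‖ ^ (5 / 4 : ℝ) * ‖y‖ ^ (-(5 / 4) : ℝ) := by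
  have hy0 : 0 < ‖y‖ := norm_pos_iff.2 hy
  have h10 : 0 < ‖w - y‖ := norm_pos_iff.2 h1
  have h20 : 0 < ‖w + y‖ := norm_pos_iff.2 h2
  have hpar : ‖w + y‖ ^ 2 + ‖w - y‖ ^ 2 = 2 * (‖w‖ ^ 2 + ‖y‖ ^ 2) := by
    have := parallelogram_law_with_norm ℝ w y
    nlinarith
  have hprod : ‖w - y‖ * ‖w + y‖ ≤ ‖w‖ ^ 2 + ‖y‖ ^ 2 := by
    nlinarith [sq_nonneg (‖w - y‖ - ‖w + y‖)]
  have h3 : Real.log ‖w - y‖ + Real.log ‖w + y‖ - 2 * Real.log ‖y‖ =
      Real.log (‖w - y‖ * ‖w + y‖ / ‖y‖ ^ 2) := by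
    rw [Real.log_div (by positivity) (by positivity), Real.log_mul h10.ne' h20.ne', Real.log_pow]
    push_cast
    ring
  rw [h3]
  have h4 : ‖w - y‖ * ‖w + y‖ / ‖y‖ ^ 2 ≤ 1 + (‖w‖ / ‖y‖) ^ 2 := by
    rw [div_pow, div_le_iff₀ (by positivity)]
    have : (1 + ‖w‖ ^ 2 / ‖y‖ ^ 2) * ‖y‖ ^ 2 = ‖w‖ ^ 2 + ‖y‖ ^ 2 := by
      field_simp
      ring
    rw [this]
    exact hprod
  refine (Real.log_le_log (by positivity) h4).trans ?_
  refine (log_one_add_le (by positivity)).trans ?_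
  have h5 : ((‖w‖ / ‖y‖) ^ 2) ^ (5 / 8 : ℝ) = ‖w‖ ^ (5 / 4 : ℝ) * ‖y‖ ^ (-(5 / 4) : ℝ) := by
    rw [← Real.rpow_natCast, ← Real.rpow_mul (by positivity), Real.div_rpow (norm_nonneg _)
      (norm_nonneg _), Real.rpow_neg (norm_nonneg _), div_eq_mul_inv]
    norm_num
  rw [h5]
  linarith

end FLAC_

open FLAC_ in
theorem stmt_FLAC : Stmt_FLAC := by
  intro k f φ z₀ hk hD hsym
  subst hk
  have hm := hD.meas
  have h0 := hD.nonneg
  have hlogm : ∀ ξ : E 2, Measurable (fun z : E 2 => Real.log ‖ξ - z‖) := by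
    intro ξ
    fun_prop
  have hint : ∀ ξ : E 2, Integrable (fun z => Real.log ‖ξ - z‖ * f z) := by
    intro ξ
    apply integrable_mul hm h0 hD.bdd hD.supp ξ _ (hlogm ξ)
    intro z
    rw [norm_sub_rev]
    exact abs_log_le (norm_nonneg _)
  have hint2 : Integrable (fun z => ‖z - z₀‖ ^ (-(5 / 4) : ℝ) * f z) := by
    apply integrable_mul hm h0 hD.bdd hD.supp z₀
    · fun_prop
    · intro z
      rw [abs_of_nonneg (Real.rpow_nonneg (norm_nonneg _) _)]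
      unfold Φ
      linarith [norm_nonneg (z - z₀)]
  set J : ℝ := ∫ z, ‖z - z₀‖ ^ (-(5 / 4) : ℝ) * f z with hJ
  have hJ0 : 0 ≤ J := by
    apply integral_nonneg
    intro z
    exact mul_nonneg (Real.rpow_nonneg (norm_nonneg _) _) (h0 z)
  refine ⟨8 / 5 * J, by positivity, ?_⟩
  intro w _
  -- symmetry
  have hs : ∫ z, Real.log ‖(z₀ + w) - z‖ * f z = ∫ z, Real.log ‖(z₀ - w) - z‖ * f z := by
    have h1 : ∫ z, Real.log ‖(z₀ + w) - z‖ * f z =
        ∫ z, (fun z => Real.log ‖(z₀ + w) - z‖ * f z) ((2 : ℝ) • z₀ - z) :=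
      (integral_sub_left_eq_self (fun z => Real.log ‖(z₀ + w) - z‖ * f z) volume
        ((2 : ℝ) • z₀)).symm
    rw [h1]
    apply integral_congr_ae
    filter_upwards [hsym] with z hz
    rw [hz]
    congr 2
    rw [← norm_neg]
    congr 1
    rw [two_smul]
    abel
  rw [hD.pot, hD.pot]
  have hfin : 2 * ∫ z, Real.log ‖(z₀ + w) - z‖ * f z =
      ∫ z, (Real.log ‖(z₀ + w) - z‖ * f z + Real.log ‖(z₀ - w) - z‖ * f z) := by
    rw [integral_add (hint _) (hint _), ← hs]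
    ring
  have hfin2 : 2 * ∫ z, Real.log ‖z₀ - z‖ * f z = ∫ z, 2 * (Real.log ‖z₀ - z‖ * f z) := by
    rw [integral_const_mul]
  have hA : Integrable (fun z => Real.log ‖(z₀ + w) - z‖ * f z
      + Real.log ‖(z₀ - w) - z‖ * f z) := (hint _).add (hint _)
  have hB : Integrable (fun z => 2 * (Real.log ‖z₀ - z‖ * f z)) := (hint _).const_mul 2
  push_cast
  rw [hfin, hfin2, ← integral_sub hA hB]
  have hle : ∫ z, (Real.log ‖(z₀ + w) - z‖ * f z + Real.log ‖(z₀ - w) - z‖ * f z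
      - 2 * (Real.log ‖z₀ - z‖ * f z)) ≤
      ∫ z, 8 / 5 * ‖w‖ ^ (5 / 4 : ℝ) * (‖z - z₀‖ ^ (-(5 / 4) : ℝ) * f z) := by
    apply integral_mono_ae (hA.sub hB) (hint2.const_mul _)
    have hae : ∀ p : E 2, ∀ᵐ z : E 2, z ≠ p := fun p => by
      have : (volume : Measure (E 2)) {p} = 0 := measure_singleton p
      exact compl_mem_ae_iff.2 this
    filter_upwards [hae z₀, hae (z₀ + w), hae (z₀ - w)] with z h1 h2 h3
    have h4 := key w (z - z₀) (sub_ne_zero.2 h1)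
      (by
        intro h
        apply h2
        have : w = z - z₀ := sub_eq_zero.1 h
        rw [this]
        abel)
      (by
        intro h
        apply h3
        have : w = -(z - z₀) := eq_neg_of_add_eq_zero_left h
        rw [this]
        abel)
    have e1 : ‖(z₀ + w) - z‖ = ‖w - (z - z₀)‖ := by
      congr 1
      abel
    have e2 : ‖(z₀ - w) - z‖ = ‖w + (z - z₀)‖ := by
      rw [← norm_neg]
      congr 1
      abel
    have e3 : ‖z₀ - z‖ = ‖z - z₀‖ := norm_sub_rev _ _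
    show Real.log ‖(z₀ + w) - z‖ * f z + Real.log ‖(z₀ - w) - z‖ * f z
      - 2 * (Real.log ‖z₀ - z‖ * f z) ≤
      8 / 5 * ‖w‖ ^ (5 / 4 : ℝ) * (‖z - z₀‖ ^ (-(5 / 4) : ℝ) * f z)
    rw [e1, e2, e3]
    have h5 := mul_le_mul_of_nonneg_right h4 (h0 z)
    linarith
  refine hle.trans ?_
  rw [integral_const_mul]
  linarith [mul_comm (‖w‖ ^ (5 / 4 : ℝ)) J]

end Pool.NS
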