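import Pool.Agent.Work.MP_b29d7f_ns.Interface3

set_option autoImplicit false

open Finset

namespace Pool.NS

open Pool.Agent.Work.MP_b29d7f_nt.Ded

namespace MK5_

variable {R : Type} [CommRing R] [IsDedekindDomain R] [Ring.HasFiniteQuotients R] [Infinite R]

lemma Lam_nonneg (I : Ideal R) : 0 ≤ Lam I := by
  classical
  unfold Lam
  split_ifs
  · exact Real.log_natCast_nonneg _
  · exact le_rfl

end MK5_

open MK5_ in
theorem stmt_MK5 : Stmt_MK5 := by
  intro R _ _ _ _ C hC d hd
  classical
  have hdr : (1:ℝ) ≤ d := by exact_mod_cast hd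
  set α : ℝ := 1 - 1 / (d : ℝ) with hα
  have hd1 : 0 < 1 / (d : ℝ) := by positivity
  have hd2 : 1 / (d : ℝ) ≤ 1 := by
    rw [div_le_one (by linarith)]
    exact hdr
  have hα0 : 0 ≤ α := by rw [hα]; linarith
  have hα1 : 0 < 1 - α := by rw [hα]; linarith
  have hC0 : 0 ≤ C := by
    have h1 := hC 1
    have h2 : 0 ≤ ∑ I ∈ ids R 1, Lam I := Finset.sum_nonneg fun I _ => Lam_nonneg I
    push_cast at h1
    linarith
  set q : ℝ := (1 / 2 : ℝ) ^ (1 - α) with hq
  have hq1 : q < 1 := Real.rpow_lt_one (by norm_num) (by norm_num) hα1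
  have hq0 : 0 ≤ q := Real.rpow_nonneg (by norm_num) _
  set C' : ℝ := (2:ℝ) ^ α * C / (1 - q) with hC'
  have hC'0 : 0 ≤ C' := by
    rw [hC']
    apply div_nonneg (mul_nonneg (Real.rpow_nonneg (by norm_num) _) hC0)
    linarith
  have hC'q : C' * q + (2:ℝ) ^ α * C = C' := by
    have : C' * (1 - q) = (2:ℝ) ^ α * C := by
      rw [hC']
      exact div_mul_cancel₀ _ (by linarith)
    linarith
  refine ⟨C', ?_⟩
  intro X
  induction X using Nat.strong_induction_on with
  | _ X ih =>
    rcases Nat.eq_zero_or_pos X with hX | hX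
    · -- no ideals
      subst hX
      have h1 : ids R 0 = ∅ := by
        rw [Finset.eq_empty_iff_forall_notMem]
        intro I hI
        rw [mem_ids] at hI
        have := Nm_pos hI.1
        omega
      rw [h1]
      simp
    have hXr : (0:ℝ) < X := by exact_mod_cast hX
    set Y : ℕ := X / 2 with hY
    have hYX : Y ≤ X := Nat.div_le_self _ _
    have hYlt : Y < X := Nat.div_lt_self hX (by norm_num)
    have hsub : ids R Y ⊆ ids R X := by
      intro I hI
      rw [mem_ids] at hI ⊢
      exact ⟨hI.1, hI.2.trans hYX⟩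
    rw [← Finset.sum_sdiff hsub]
    -- large norms
    have hlarge : ∑ I ∈ ids R X \ ids R Y, Lam I * ((X : ℝ) / Nm I) ^ α ≤
        (2:ℝ) ^ α * C * X := by
      have h1 : ∀ I ∈ ids R X \ ids R Y, Lam I * ((X : ℝ) / Nm I) ^ α ≤ (2:ℝ) ^ α * Lam I := by
        intro I hI
        rw [Finset.mem_sdiff, mem_ids, mem_ids] at hI
        have h2 : Y < Nm I := by
          by_contra h3
          exact hI.2 ⟨hI.1.1, not_lt.1 h3⟩
        have h3 : X ≤ 2 * Nm I := by omega
        have h4 : (0:ℝ) < Nm I := by exact_mod_cast Nm_pos hI.1.1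
        have h5 : (X : ℝ) / Nm I ≤ 2 := by
          rw [div_le_iff₀ h4]
          exact_mod_cast h3
        rw [mul_comm]
        apply mul_le_mul_of_nonneg_right _ (Lam_nonneg I)
        exact Real.rpow_le_rpow (by positivity) h5 hα0
      refine (Finset.sum_le_sum h1).trans ?_
      rw [← Finset.mul_sum, mul_assoc]
      apply mul_le_mul_of_nonneg_left _ (Real.rpow_nonneg (by norm_num) _)
      refine le_trans ?_ (hC X)
      exact Finset.sum_le_sum_of_subset_of_nonneg Finset.sdiff_subset
        fun I _ _ => Lam_nonneg I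
    have hsmall : ∑ I ∈ ids R Y, Lam I * ((X : ℝ) / Nm I) ^ α ≤ C' * q * X := by
      rcases Nat.eq_zero_or_pos Y with hY0 | hY0
      · rw [hY0]
        have h1 : ids R 0 = ∅ := by
          rw [Finset.eq_empty_iff_forall_notMem]
          intro I hI
          rw [mem_ids] at hI
          have := Nm_pos hI.1
          omega
        rw [h1, Finset.sum_empty]
        positivity
      have hYr : (0:ℝ) < Y := by exact_mod_cast hY0
      have h1 : ∀ I ∈ ids R Y, Lam I * ((X : ℝ) / Nm I) ^ α =
          ((X : ℝ) / Y) ^ α * (Lam I * ((Y : ℝ) / Nm I) ^ α) := by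
        intro I hI
        rw [mem_ids] at hI
        have h4 : (0:ℝ) < Nm I := by exact_mod_cast Nm_pos hI.1
        have h5 : (X : ℝ) / Nm I = ((X : ℝ) / Y) * ((Y : ℝ) / Nm I) := by
          field_simp
        rw [h5, Real.mul_rpow (by positivity) (by positivity)]
        ring
      rw [Finset.sum_congr rfl h1, ← Finset.mul_sum]
      have h2 : ((X : ℝ) / Y) ^ α * ∑ I ∈ ids R Y, Lam I * ((Y : ℝ) / Nm I) ^ α ≤
          ((X : ℝ) / Y) ^ α * (C' * Y) :=
        mul_le_mul_of_nonneg_left (ih Y hYlt) (Real.rpow_nonneg (by positivity) _)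
      refine h2.trans ?_
      -- `(X/Y)^α Y ≤ q X`
      have h3 : ((X : ℝ) / Y) ^ α * Y ≤ q * X := by
        have hu : (Y : ℝ) / X ≤ 1 / 2 := by
          rw [div_le_div_iff₀ hXr (by norm_num)]
          have : 2 * Y ≤ X := by omega
          have : (2:ℝ) * Y ≤ X := by exact_mod_cast this
          linarith
        have hu0 : 0 < (Y : ℝ) / X := by positivity
        have h4 : ((X : ℝ) / Y) ^ α = ((Y : ℝ) / X) ^ (-α) := by
          rw [Real.rpow_neg hu0.le, ← Real.inv_rpow hu0.le, inv_div]
        have h5 : (Y : ℝ) = ((Y : ℝ) / X) ^ (1:ℝ) * X := by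
          rw [Real.rpow_one]
          field_simp
        have h6 : ((X : ℝ) / Y) ^ α * Y = ((Y : ℝ) / X) ^ (1 - α) * X := by
          calc ((X : ℝ) / Y) ^ α * Y = ((Y : ℝ) / X) ^ (-α) * (((Y : ℝ) / X) ^ (1:ℝ) * X) := by
                rw [← h5, h4]
            _ = ((Y : ℝ) / X) ^ (1 - α) * X := by
                rw [← mul_assoc, ← Real.rpow_add hu0]
                congr 2
                ring
        rw [h6]
        apply mul_le_mul_of_nonneg_right _ hXr.le
        exact Real.rpow_le_rpow hu0.le hu hα1.le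
      calc ((X : ℝ) / Y) ^ α * (C' * Y) = C' * (((X : ℝ) / Y) ^ α * Y) := by ring
        _ ≤ C' * (q * X) := mul_le_mul_of_nonneg_left h3 hC'0
        _ = C' * q * X := by ring
    calc _ ≤ (2:ℝ) ^ α * C * X + C' * q * X := add_le_add hlarge hsmall
      _ = (C' * q + (2:ℝ) ^ α * C) * X := by ring
      _ = C' * X := by rw [hC'q]

end Pool.NS
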