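import Pool.Agent.Work.MP_b29d7f_ns.Interface3

set_option autoImplicit false

open Finset

namespace Pool.NS

namespace TCON_

open Data

variable {R : Type} [CommRing R] {P : Data R} {C₁ : ℝ}

/-- far elements: `cap` does not change -/
lemma cap_eq (h : P.Geo C₁) {t : P.T} {m q : ℤ} {x y b : R} (hxy : P.NearT t q x y)
    (hb : ¬ P.NearT t q x b) : P.cap t m (x - b) = P.cap t m (y - b) := by
  have hyb : ¬ P.NearT t q y b := fun h1 => hb (h.nearT_trans hxy h1)
  have key : ∀ x y : R, P.NearT t q x y → ¬ P.NearT t q x b → ¬ P.NearT t q y b →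
      P.lev t (x - b) ≤ P.lev t (y - b) := by
    intro x y hxy hxb hyb
    by_cases he : x = y
    · rw [he]
    have h1 : P.lev t (x - y) ≤ q := hxy.resolve_left he
    have hxb0 : x - b ≠ 0 := fun h0 => hxb (Or.inl (sub_eq_zero.1 h0))
    have hyb0 : y - b ≠ 0 := fun h0 => hyb (Or.inl (sub_eq_zero.1 h0))
    have h2 := h.lev_add t (x - y) (y - b) (sub_ne_zero.2 he) hyb0
      (by rw [sub_add_sub_cancel]; exact hxb0)
    rw [sub_add_sub_cancel] at h2
    have h3 : q < P.lev t (x - b) := by
      by_contra h4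
      exact hxb (Or.inr (not_lt.1 h4))
    rcases le_max_iff.1 h2 with h4 | h4
    · omega
    · exact h4
  have h1 := key x y hxy hb hyb
  have h2 := key y x (h.nearT_symm hxy) hyb hb
  have h3 : P.lev t (x - b) = P.lev t (y - b) := le_antisymm h1 h2
  have hxb0 : x - b ≠ 0 := fun h0 => hb (Or.inl (sub_eq_zero.1 h0))
  have hyb0 : y - b ≠ 0 := fun h0 => hyb (Or.inl (sub_eq_zero.1 h0))
  unfold cap
  rw [if_neg hxb0, if_neg hyb0, h3]

open scoped Classical in
/-- near elements: the distance of `cap` from the level `j - r` -/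
lemma cap_near {t : P.T} {j : ℤ} {r M : ℕ} (hrM : r ≤ M) {x b : R}
    (hxb : P.NearT t (j - r) x b) :
    (((j - r) - P.cap t (j - M) (x - b) : ℤ) : ℝ) =
      ∑ k ∈ Finset.Ioc r M, (if P.NearT t (j - k) x b then (1:ℝ) else 0) := by
  have hle : P.cap t (j - M) (x - b) ≤ j - r := by
    rw [← nearT_iff_cap (by omega)]
    exact hxb
  have hge : j - M ≤ P.cap t (j - M) (x - b) := P.le_cap t _ _
  obtain ⟨c, hc⟩ : ∃ c : ℕ, P.cap t (j - M) (x - b) = j - c := by
    refine ⟨(j - P.cap t (j - M) (x - b)).toNat, ?_⟩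
    omega
  have hc1 : r ≤ c := by omega
  have hc2 : c ≤ M := by omega
  have h1 : ∀ k ∈ Finset.Ioc r M, (if P.NearT t (j - k) x b then (1:ℝ) else 0) =
      if k ≤ c then 1 else 0 := by
    intro k hk
    rw [Finset.mem_Ioc] at hk
    have : P.NearT t (j - k) x b ↔ k ≤ c := by
      rw [nearT_iff_cap (m := j - M) (by omega), hc]
      omega
    simp only [this]
  rw [Finset.sum_congr rfl h1, ← Finset.sum_filter, Finset.sum_const, nsmul_eq_mul, mul_one, hc]
  have h2 : (Finset.Ioc r M).filter (fun k => k ≤ c) = Finset.Ioc r c := by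
    ext k
    rw [Finset.mem_filter, Finset.mem_Ioc, Finset.mem_Ioc]
    omega
  rw [h2, Nat.card_Ioc]
  push_cast [Nat.cast_sub hc1]
  ring

lemma geom_tail (c : ℝ) (hc : 0 < c) (r M : ℕ) :
    ∑ k ∈ Finset.Ioc r M, Real.exp (-(c * k)) ≤ Real.exp (-(c * r)) / (1 - Real.exp (-c)) := by
  have hq1 : Real.exp (-c) < 1 := (Real.exp_lt_one_iff.2 (by linarith))
  have hq0 : 0 < Real.exp (-c) := Real.exp_pos _
  rcases le_or_gt r M with hrM | hrM
  · -- induction on `M`
    obtain ⟨d, rfl⟩ := Nat.exists_eq_add_of_le hrM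
    have key : ∀ d : ℕ, ∑ k ∈ Finset.Ioc r (r + d), Real.exp (-(c * k)) ≤
        (Real.exp (-(c * r)) - Real.exp (-(c * ((r + d : ℕ) : ℝ)))) / (1 - Real.exp (-c)) := by
      intro d
      induction d with
      | zero => simp
      | succ d ih =>
        rw [← add_assoc, Finset.sum_Ioc_succ_top (by omega)]
        have h1 : Real.exp (-(c * ((r + d + 1 : ℕ) : ℝ))) =
            Real.exp (-(c * ((r + d : ℕ) : ℝ))) * Real.exp (-c) := by
          rw [← Real.exp_add]
          congr 1
          push_cast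
          ring
        have h2 : 0 < Real.exp (-(c * ((r + d : ℕ) : ℝ))) := Real.exp_pos _
        rw [h1]
        rw [le_div_iff₀ (by linarith)] at ih ⊢
        rw [add_mul]
        have h3 : Real.exp (-(c * ((r + d : ℕ) : ℝ))) * Real.exp (-c) * (1 - Real.exp (-c)) ≤
            Real.exp (-(c * ((r + d : ℕ) : ℝ))) * (1 - Real.exp (-c)) := by
          apply mul_le_mul_of_nonneg_right _ (by linarith)
          exact mul_le_of_le_one_right h2.le hq1.le
        linarith
    refine (key d).trans ?_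
    apply div_le_div_of_nonneg_right _ (by linarith)
    have := Real.exp_pos (-(c * ((r + d : ℕ) : ℝ)))
    linarith
  · rw [Finset.Ioc_eq_empty (by omega), Finset.sum_empty]
    apply div_nonneg (Real.exp_pos _).le
    linarith

open scoped Classical in
/-- the sum over the near elements -/
lemma near_sum (S : Sq P) (l r : ℕ) (t : P.T) (x : R) (hr : r ≤ P.Mx (S.A l).card) :
    ∑ b ∈ (S.A l).filter (fun b => P.NearT t (S.j l t - r) x b),
      (((S.j l t - r) - P.cap t (S.j l t - P.Mx (S.A l).card) (x - b) : ℤ) : ℝ) ≤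
      S.C * (Real.exp (-(S.c * r)) / (1 - Real.exp (-S.c))) * S.n l := by
  have h1 : ∑ b ∈ (S.A l).filter (fun b => P.NearT t (S.j l t - r) x b),
      (((S.j l t - r) - P.cap t (S.j l t - P.Mx (S.A l).card) (x - b) : ℤ) : ℝ) =
      ∑ b ∈ (S.A l).filter (fun b => P.NearT t (S.j l t - r) x b),
        ∑ k ∈ Finset.Ioc r (P.Mx (S.A l).card),
          (if P.NearT t (S.j l t - k) x b then (1:ℝ) else 0) := by
    apply Finset.sum_congr rfl
    intro b hb
    exact cap_near hr (Finset.mem_filter.1 hb).2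
  rw [h1, Finset.sum_comm]
  have h2 : ∀ k ∈ Finset.Ioc r (P.Mx (S.A l).card),
      ∑ b ∈ (S.A l).filter (fun b => P.NearT t (S.j l t - r) x b),
        (if P.NearT t (S.j l t - k) x b then (1:ℝ) else 0) ≤
      S.C * Real.exp (-(S.c * k)) * S.n l := by
    intro k hk
    rw [Finset.mem_Ioc] at hk
    have h3 := (S.frame l).smallT k hk.2 t x
    refine le_trans ?_ h3
    rw [← Finset.sum_filter, Finset.sum_const, nsmul_eq_mul, mul_one]
    unfold Data.cntT
    have h4 : (((S.A l).filter (fun b => P.NearT t (S.j l t - r) x b)).filter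
        (fun b => P.NearT t (S.j l t - k) x b)).card ≤
        ((S.A l).filter (fun b => P.NearT t (S.j l t - k) b x)).card := by
      apply Finset.card_le_card
      intro b hb
      rw [Finset.mem_filter, Finset.mem_filter] at hb
      exact Finset.mem_filter.2 ⟨hb.1.1, S.geo.nearT_symm hb.2⟩
    exact_mod_cast h4
  refine (Finset.sum_le_sum h2).trans ?_
  have h5 : ∑ k ∈ Finset.Ioc r (P.Mx (S.A l).card), S.C * Real.exp (-(S.c * k)) * S.n l =
      S.C * (∑ k ∈ Finset.Ioc r (P.Mx (S.A l).card), Real.exp (-(S.c * k))) * S.n l := by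
    rw [Finset.mul_sum, Finset.sum_mul]
  rw [h5]
  apply mul_le_mul_of_nonneg_right _ (S.n_pos l).le
  exact mul_le_mul_of_nonneg_left (geom_tail S.c S.hc r _) S.hC.le

end TCON_

open TCON_ Data in
theorem stmt_TCON : Stmt_TCON := by
  intro R _ P S
  classical
  have hq1 : Real.exp (-S.c) < 1 := Real.exp_lt_one_iff.2 (by linarith [S.hc])
  have hlq : 0 ≤ ∑ t, P.lq t := Finset.sum_nonneg fun t _ => (S.good.lq_pos t).le
  refine ⟨(∑ t, P.lq t) * (2 * (S.C / (1 - Real.exp (-S.c)))), S.c, ?_, S.hc, ?_⟩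
  · apply mul_nonneg hlq
    have := S.hC
    have h2 : 0 < 1 - Real.exp (-S.c) := by linarith
    positivity
  intro r l hr x y hxy
  have hn := S.n_pos l
  set M := P.Mx (S.A l).card with hM
  unfold Sq.pT
  rw [← Finset.sum_sub_distrib]
  refine (Finset.abs_sum_le_sum_abs _ _).trans ?_
  rw [Finset.sum_mul, Finset.sum_mul]
  apply Finset.sum_le_sum
  intro t _
  rw [← mul_sub, ← mul_sub, abs_mul, abs_mul, abs_of_pos (S.good.lq_pos t),
    abs_of_pos (inv_pos.2 hn), mul_assoc (P.lq t)]
  apply mul_le_mul_of_nonneg_left _ (S.good.lq_pos t).le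
  rw [inv_mul_le_iff₀ hn, ← Finset.sum_sub_distrib]
  -- split in near and far
  have hsplit : ∑ b ∈ S.A l, (((P.cap t (S.j l t - M) (x - b) - S.j l t : ℤ) : ℝ)
      - ((P.cap t (S.j l t - M) (y - b) - S.j l t : ℤ) : ℝ)) =
      ∑ b ∈ (S.A l).filter (fun b => P.NearT t (S.j l t - r) x b),
        ((((S.j l t - r) - P.cap t (S.j l t - M) (y - b) : ℤ) : ℝ) -
        (((S.j l t - r) - P.cap t (S.j l t - M) (x - b) : ℤ) : ℝ)) := by
    rw [← Finset.sum_filter_add_sum_filter_not (S.A l) (fun b => P.NearT t (S.j l t - r) x b)]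
    have h0 : ∑ b ∈ (S.A l).filter (fun b => ¬ P.NearT t (S.j l t - r) x b),
        (((P.cap t (S.j l t - M) (x - b) - S.j l t : ℤ) : ℝ)
          - ((P.cap t (S.j l t - M) (y - b) - S.j l t : ℤ) : ℝ)) = 0 := by
      apply Finset.sum_eq_zero
      intro b hb
      rw [cap_eq S.geo (hxy t) (Finset.mem_filter.1 hb).2, sub_self]
    rw [h0, add_zero]
    apply Finset.sum_congr rfl
    intro b _
    push_cast
    ring
  rw [hsplit, Finset.sum_sub_distrib]
  have hx := near_sum S l r t x hr
  have hy := near_sum S l r t y hr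
  have hfilt : (S.A l).filter (fun b => P.NearT t (S.j l t - r) x b) =
      (S.A l).filter (fun b => P.NearT t (S.j l t - r) y b) := by
    apply Finset.filter_congr
    intro b _
    constructor
    · intro h1
      exact S.geo.nearT_trans (S.geo.nearT_symm (hxy t)) h1
    · intro h1
      exact S.geo.nearT_trans (hxy t) h1
  rw [← hfilt] at hy
  have hnn : ∀ z : R, P.NearT t (S.j l t - r) x z ∨ True → 0 ≤
      ∑ b ∈ (S.A l).filter (fun b => P.NearT t (S.j l t - r) x b),
        (((S.j l t - r) - P.cap t (S.j l t - M) (x - b) : ℤ) : ℝ) := by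
    intro z _
    apply Finset.sum_nonneg
    intro b hb
    rw [cap_near hr (Finset.mem_filter.1 hb).2]
    apply Finset.sum_nonneg
    intro k _
    split_ifs <;> norm_num
  have hnx := hnn x (Or.inr trivial)
  have hny : 0 ≤ ∑ b ∈ (S.A l).filter (fun b => P.NearT t (S.j l t - r) x b),
        (((S.j l t - r) - P.cap t (S.j l t - M) (y - b) : ℤ) : ℝ) := by
    rw [hfilt]
    apply Finset.sum_nonneg
    intro b hb
    rw [cap_near hr (Finset.mem_filter.1 hb).2]
    apply Finset.sum_nonneg
    intro k _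
    split_ifs <;> norm_num
  have hval : S.n l * (2 * (S.C / (1 - Real.exp (-S.c))) * Real.exp (-(S.c * r))) =
      S.C * (Real.exp (-(S.c * r)) / (1 - Real.exp (-S.c))) * S.n l +
      S.C * (Real.exp (-(S.c * r)) / (1 - Real.exp (-S.c))) * S.n l := by ring
  rw [hval, abs_le]
  constructor <;> linarith

end Pool.NS
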