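import Pool.Agent.Work.MP_b29d7f_ns.Interface3

set_option autoImplicit false

open Finset

namespace Pool.NS

namespace SCAL_

/-- a predicate on the integers which holds somewhere and is bounded above changes its value -/
lemma exists_last (Q : ℤ → Prop) (h1 : ∃ k, Q k) (h2 : ∃ b, ∀ k, Q k → k ≤ b) :
    ∃ k, Q k ∧ ¬ Q (k + 1) := by
  obtain ⟨b, hb⟩ := h2
  obtain ⟨ub, hub, hmax⟩ := Int.exists_greatest_of_bdd ⟨b, fun z hz => hb z hz⟩ h1
  refine ⟨ub, hub, fun h => ?_⟩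
  have := hmax (ub + 1) h
  omega

lemma exists_sep {R : Type} (A : Finset R) (f : R → R → ℝ)
    (hf : ∀ x ∈ A, ∀ y ∈ A, x ≠ y → 0 < f x y) :
    ∃ δ : ℝ, 0 < δ ∧ ∀ x ∈ A, ∀ y ∈ A, x ≠ y → δ ≤ f x y := by
  classical
  by_cases hS : ((A ×ˢ A).filter (fun z => z.1 ≠ z.2)).Nonempty
  · obtain ⟨z, hz, hmin⟩ := Finset.exists_min_image _ (fun z => f z.1 z.2) hS
    rw [Finset.mem_filter, Finset.mem_product] at hz
    refine ⟨f z.1 z.2, hf _ hz.1.1 _ hz.1.2 hz.2, ?_⟩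
    intro x hx y hy hxy
    exact hmin (x, y) (Finset.mem_filter.2 ⟨Finset.mem_product.2 ⟨hx, hy⟩, hxy⟩)
  · refine ⟨1, one_pos, ?_⟩
    intro x hx y hy hxy
    exact (hS ⟨(x, y), Finset.mem_filter.2 ⟨Finset.mem_product.2 ⟨hx, hy⟩, hxy⟩⟩).elim

variable {R : Type} [CommRing R] {P : Data R} {C₁ : ℝ}

lemma scaleV (h : P.Geo C₁) (θ : ℝ) (hθ : 0 < θ) (hθ2 : θ ≤ 1 / 2) (A : Finset R)
    (hA : 1 / θ ≤ A.card) (v : P.Ω) :
    ∃ ρ : ℝ, 0 < ρ ∧ (∀ z, (P.cntV A v z ρ : ℝ) ≤ θ * A.card) ∧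
      ∃ z, θ * A.card < P.cntV A v z (2 * ρ) := by
  classical
  have hθA : 1 ≤ θ * A.card := by
    rw [div_le_iff₀ hθ] at hA
    linarith
  have hApos : (0:ℝ) < A.card := by
    by_contra hh
    nlinarith
  have small : ∃ k : ℤ, ∀ z, (P.cntV A v z ((2:ℝ) ^ k) : ℝ) ≤ θ * A.card := by
    -- small radii
    obtain ⟨δ, hδ, hsep⟩ := exists_sep A (fun x y => ‖P.em x v - P.em y v‖) (by
      intro x _ y _ hxy
      rw [← Data.em_sub]
      exact norm_pos_iff.2 (h.em_ne _ (sub_ne_zero.2 hxy) v))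
    obtain ⟨n, hn⟩ := exists_pow_lt_of_lt_one (show 0 < δ / 2 by positivity)
      (show (1 / 2 : ℝ) < 1 by norm_num)
    refine ⟨-(n : ℤ), fun z => ?_⟩
    have h2 : (2:ℝ) ^ (-(n : ℤ)) = (1 / 2 : ℝ) ^ n := by
      rw [zpow_neg, zpow_natCast, one_div, inv_pow]
    rw [h2]
    refine le_trans ?_ hθA
    have h3 : P.cntV A v z ((1 / 2 : ℝ) ^ n) ≤ 1 := by
      unfold Data.cntV
      rw [Finset.card_le_one]
      intro x hx y hy
      rw [Finset.mem_filter] at hx hy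
      by_contra hxy
      have h4 := hsep x hx.1 y hy.1 hxy
      have h5 : ‖P.em x v - P.em y v‖ ≤ ‖P.em x v - z‖ + ‖P.em y v - z‖ := by
        have : P.em x v - P.em y v = (P.em x v - z) - (P.em y v - z) := by abel
        rw [this]
        exact norm_sub_le _ _
      linarith [hx.2, hy.2]
    exact_mod_cast h3
  have large : ∃ b : ℤ, ∀ k : ℤ, (∀ z, (P.cntV A v z ((2:ℝ) ^ k) : ℝ) ≤ θ * A.card) → k ≤ b := by
    -- large radii
    obtain ⟨n, hn⟩ := pow_unbounded_of_one_lt (∑ x ∈ A, ‖P.em x v‖) (show (1:ℝ) < 2 by norm_num)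
    refine ⟨n, fun k hk => ?_⟩
    by_contra hlt
    rw [not_le] at hlt
    have h2 : (2:ℝ) ^ (n : ℤ) ≤ (2:ℝ) ^ k := zpow_le_zpow_right₀ (by norm_num) hlt.le
    rw [zpow_natCast] at h2
    have h3 : P.cntV A v 0 ((2:ℝ) ^ k) = A.card := by
      unfold Data.cntV
      rw [Finset.filter_true_of_mem]
      intro x hx
      rw [sub_zero]
      have := Finset.single_le_sum (f := fun x => ‖P.em x v‖) (fun x _ => norm_nonneg _) hx
      linarith
    have h4 := hk 0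
    rw [h3] at h4
    nlinarith
  obtain ⟨k, hk1, hk2⟩ := exists_last
    (fun k : ℤ => ∀ z, (P.cntV A v z ((2:ℝ) ^ k) : ℝ) ≤ θ * A.card) small large
  refine ⟨(2:ℝ) ^ k, by positivity, hk1, ?_⟩
  push Not at hk2
  obtain ⟨z, hz⟩ := hk2
  refine ⟨z, ?_⟩
  have : 2 * (2:ℝ) ^ k = (2:ℝ) ^ (k + 1) := by
    rw [zpow_add_one₀ (by norm_num)]
    ring
  rw [this]
  exact hz

lemma scaleT (h : P.Geo C₁) (θ : ℝ) (hθ : 0 < θ) (hθ2 : θ ≤ 1 / 2) (A : Finset R)
    (hA : 1 / θ ≤ A.card) (t : P.T) :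
    ∃ m : ℤ, (∀ a, (P.cntT A t a m : ℝ) ≤ θ * A.card) ∧
      ∃ a, θ * A.card < P.cntT A t a (m + 1) := by
  classical
  have hθA : 1 ≤ θ * A.card := by
    rw [div_le_iff₀ hθ] at hA
    linarith
  have hApos : (0:ℝ) < A.card := by
    by_contra hh
    nlinarith
  have hAne : A.Nonempty := by
    rw [← Finset.card_pos]
    exact_mod_cast hApos
  set M : ℤ := ∑ x ∈ A, ∑ y ∈ A, |P.lev t (x - y)| with hM
  have hMb : ∀ x ∈ A, ∀ y ∈ A, |P.lev t (x - y)| ≤ M := by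
    intro x hx y hy
    have h1 : |P.lev t (x - y)| ≤ ∑ y ∈ A, |P.lev t (x - y)| :=
      Finset.single_le_sum (f := fun y => |P.lev t (x - y)|) (fun _ _ => abs_nonneg _) hy
    have h2 : ∑ y ∈ A, |P.lev t (x - y)| ≤ M :=
      Finset.single_le_sum (f := fun x => ∑ y ∈ A, |P.lev t (x - y)|)
        (fun _ _ => Finset.sum_nonneg fun _ _ => abs_nonneg _) hx
    exact h1.trans h2
  have small : ∃ k : ℤ, ∀ a, (P.cntT A t a k : ℝ) ≤ θ * A.card := by
    refine ⟨-M - 1, fun a => ?_⟩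
    refine le_trans ?_ hθA
    have h3 : P.cntT A t a (-M - 1) ≤ 1 := by
      unfold Data.cntT
      rw [Finset.card_le_one]
      intro x hx y hy
      rw [Finset.mem_filter] at hx hy
      by_contra hxy
      have h4 : P.NearT t (-M - 1) x y := h.nearT_trans hx.2 (h.nearT_symm hy.2)
      have h5 := h4.resolve_left hxy
      have h6 := (abs_le.1 (hMb x hx.1 y hy.1)).1
      omega
    exact_mod_cast h3
  have large : ∃ b : ℤ, ∀ k : ℤ, (∀ a, (P.cntT A t a k : ℝ) ≤ θ * A.card) → k ≤ b := by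
    refine ⟨M, fun k hk => ?_⟩
    by_contra hlt
    rw [not_le] at hlt
    obtain ⟨a, ha⟩ := hAne
    have h3 : P.cntT A t a k = A.card := by
      unfold Data.cntT
      rw [Finset.filter_true_of_mem]
      intro x hx
      right
      have := (abs_le.1 (hMb x hx a ha)).2
      omega
    have h4 := hk a
    rw [h3] at h4
    nlinarith
  obtain ⟨k, hk1, hk2⟩ := exists_last
    (fun k : ℤ => ∀ a, (P.cntT A t a k : ℝ) ≤ θ * A.card) small large
  refine ⟨k, hk1, ?_⟩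
  push Not at hk2
  exact hk2

end SCAL_

open SCAL_ in
theorem stmt_SCAL : Stmt_SCAL := by
  intro R _ P C₁ h θ hθ hθ2 A hA
  choose ρ hρ1 hρ2 hρ3 using fun v => scaleV h θ hθ hθ2 A hA v
  choose m hm1 hm2 using fun t => scaleT h θ hθ hθ2 A hA t
  exact ⟨ρ, m, hρ1, hρ2, hm1, hρ3, hm2⟩

end Pool.NS
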